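import Pool.Agent.Helper13_Eng2.Stmts

/-! Squad ENG part 2, module HMON (helper75): monotonicity in the dimension for `PSU`. -/

set_option autoImplicit false

namespace Pool.Agent.Eng.H75

open Matrix Pool.Agent.Eng

variable {K : Type} [Field K] [StarRing K]

/-- the block embedding -/
def blk (m r : ℕ) (A : Matrix (Fin m) (Fin m) K) : Matrix (Fin (m + r)) (Fin (m + r)) K :=
  (fromBlocks A 0 0 (1 : Matrix (Fin r) (Fin r) K)).submatrix
    finSumFinEquiv.symm finSumFinEquiv.symm

theorem blk_mul (m r : ℕ) (A B : Matrix (Fin m) (Fin m) K) :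
    blk m r (A * B) = blk m r A * blk m r B := by
  unfold blk
  rw [submatrix_mul_equiv, fromBlocks_multiply]
  simp

theorem blk_one (m r : ℕ) : blk m r (1 : Matrix (Fin m) (Fin m) K) = 1 := by
  unfold blk
  rw [fromBlocks_one, submatrix_one_equiv]

theorem blk_star (m r : ℕ) (A : Matrix (Fin m) (Fin m) K) :
    star (blk m r A) = blk m r (star A) := by
  unfold blk
  rw [star_eq_conjTranspose, conjTranspose_submatrix, fromBlocks_conjTranspose,
    star_eq_conjTranspose]
  simp

theorem blk_det (m r : ℕ) (A : Matrix (Fin m) (Fin m) K) : (blk m r A).det = A.det := by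
  unfold blk
  rw [det_submatrix_equiv_self, det_fromBlocks_zero₂₁, det_one, mul_one]

theorem blk_mem (m r : ℕ) {A : Matrix (Fin m) (Fin m) K}
    (hA : A ∈ specialUnitaryGroup (Fin m) K) :
    blk m r A ∈ specialUnitaryGroup (Fin (m + r)) K := by
  rw [mem_specialUnitaryGroup_iff, mem_unitaryGroup_iff] at hA ⊢
  refine ⟨?_, by rw [blk_det]; exact hA.2⟩
  rw [blk_star, ← blk_mul, hA.1, blk_one]

/-- the homomorphism -/
def blkHom (m r : ℕ) : SU m K →* SU (m + r) K where
  toFun A := ⟨blk m r A, blk_mem m r A.2⟩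
  map_one' := Subtype.ext (blk_one m r)
  map_mul' _ _ := Subtype.ext (blk_mul m r _ _)

theorem blk_scal (m r : ℕ) {A : Matrix (Fin m) (Fin m) K} {c : K}
    (h : blk m r A = c • (1 : Matrix (Fin (m + r)) (Fin (m + r)) K)) :
    A = c • (1 : Matrix (Fin m) (Fin m) K) := by
  ext i j
  have := congrFun (congrFun h (finSumFinEquiv (Sum.inl i))) (finSumFinEquiv (Sum.inl j))
  simpa [blk, Matrix.one_apply] using this

theorem hmon (h1 : HcenStmt) (h2 : PdCenStmt) : HmonStmt := by
  intro K _ _ _ m n N hx hmn hP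
  obtain ⟨r, rfl⟩ := Nat.exists_eq_add_of_le hmn
  refine h2 (SU m K) (SU (m + r) K) (blkHom m r) (Subgroup.center _) (Subgroup.center _) N ?_ hP
  intro A hA
  rw [h1 K (m + r) _ hx] at hA
  obtain ⟨c, hc⟩ := hA
  rw [h1 K m _ hx]
  exact ⟨c, blk_scal m r hc⟩

end Pool.Agent.Eng.H75
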