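import Pool.Agent.Helper13_Eng2.Stmts

/-! Squad ENG part 2, module HSP (helper75): `Sp(2m,F)` inside `SU(n,K)`. -/

set_option autoImplicit false

namespace Pool.Agent.Eng.H75S

open Matrix Pool.Agent.Eng

section form

variable {K : Type} [Field K] [StarRing K] (m : ℕ) (θ : K)

/-- the hermitian form -/
def hf (u v : Fin m ⊕ Fin m → K) : K := θ * (star u ⬝ᵥ (J (Fin m) K *ᵥ v))

theorem J_anti (u v : Fin m ⊕ Fin m → K) :
    u ⬝ᵥ (J (Fin m) K *ᵥ v) = -(v ⬝ᵥ (J (Fin m) K *ᵥ u)) := by
  rw [dotProduct_mulVec, ← mulVec_transpose, J_transpose, neg_mulVec, neg_dotProduct,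
    dotProduct_comm]

theorem hf_herm (hθ : θ ≠ 0) (hs : star θ = -θ) : IsHerm (hf m θ) where
  add_right := by
    intro u v w
    unfold hf
    rw [mulVec_add, dotProduct_add, mul_add]
  smul_right := by
    intro c u v
    unfold hf
    rw [mulVec_smul, dotProduct_smul, smul_eq_mul]
    ring
  symm := by
    intro u v
    unfold hf
    have h1 : star (star u ⬝ᵥ (J (Fin m) K *ᵥ v)) = u ⬝ᵥ (J (Fin m) K *ᵥ star v) := by
      have h2 : star (J (Fin m) K *ᵥ v) = J (Fin m) K *ᵥ star v := by
        funext i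
        simp only [Pi.star_apply, mulVec, dotProduct, star_sum, star_mul']
        refine Finset.sum_congr rfl fun j _ => ?_
        congr 1
        rcases i with i | i <;> rcases j with j | j <;> simp [J, Matrix.one_apply, apply_ite star]
      simp only [dotProduct, star_sum, star_mul', Pi.star_apply, star_star]
      refine Finset.sum_congr rfl fun j _ => ?_
      congr 1
      exact congrFun h2 j
    rw [star_mul', h1, hs, J_anti m u (star v)]
    ring
  nondeg := by
    intro u hu
    funext i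
    have h1 := hu (-(J (Fin m) K *ᵥ Pi.single i 1))
    unfold hf at h1
    rw [mulVec_neg, mulVec_mulVec, J_squared, neg_mulVec, neg_neg, one_mulVec] at h1
    have h2 := (mul_eq_zero.1 h1).resolve_left hθ
    rw [dotProduct_single, mul_one, Pi.star_apply, star_eq_zero] at h2
    exact h2

end form

section hom

variable {F K : Type} [Field F] [Field K] [StarRing K] [Algebra F K] (m : ℕ) (θ : K)

/-- the matrix over the big field -/
def mat (g : Sp m F) : Matrix (Fin m ⊕ Fin m) (Fin m ⊕ Fin m) K :=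
  (g : Matrix (Fin m ⊕ Fin m) (Fin m ⊕ Fin m) F).map (algebraMap F K)

/-- as a homomorphism -/
noncomputable def hom0 : Sp m F →* Module.End K (Fin m ⊕ Fin m → K) where
  toFun g := Matrix.toLin' (mat (K := K) m g)
  map_one' := by
    have : mat (K := K) m (1 : Sp m F) = 1 := by
      unfold mat
      exact Matrix.map_one _ (map_zero _) (map_one _)
    rw [this, Matrix.toLin'_one]
    rfl
  map_mul' x y := by
    have : mat (K := K) m (x * y) = mat m x * mat m y := by
      unfold mat
      exact Matrix.map_mul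
    rw [this, Matrix.toLin'_mul]
    rfl

/-- as a homomorphism into the group of linear equivalences -/
noncomputable def hom1 : Sp m F →* ((Fin m ⊕ Fin m → K) ≃ₗ[K] (Fin m ⊕ Fin m → K)) :=
  (LinearMap.GeneralLinearGroup.generalLinearEquiv K (Fin m ⊕ Fin m → K)).toMonoidHom.comp
    (hom0 (K := K) m).toHomUnits

theorem hom1_apply (g : Sp m F) (v : Fin m ⊕ Fin m → K) : hom1 (K := K) m g v = mat m g *ᵥ v := by
  change (hom0 (K := K) m g) v = _
  exact Matrix.toLin'_apply _ _

theorem mat_sp (g : Sp m F) : (mat (K := K) m g)ᵀ * J (Fin m) K * mat m g = J (Fin m) K := by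
  have h := SymplecticGroup.mem_iff'.1 g.2
  have h1 := congrArg (fun M : Matrix (Fin m ⊕ Fin m) (Fin m ⊕ Fin m) F =>
    M.map (algebraMap F K)) h
  simp only [Matrix.map_mul] at h1
  have hJ : (J (Fin m) F).map (algebraMap F K) = J (Fin m) K := by
    ext i j
    rcases i with i | i <;> rcases j with j | j <;>
      simp [J, Matrix.one_apply, apply_ite (algebraMap F K)]
  rw [hJ] at h1
  exact h1

theorem hom1_mem (hF : ∀ c : F, star (algebraMap F K c) = algebraMap F K c) (g : Sp m F) :
    hom1 (K := K) m g ∈ SUV (hf m θ) := by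
  refine ⟨?_, ?_⟩
  · intro u v
    rw [hom1_apply, hom1_apply]
    unfold hf
    have h1 : star (mat (K := K) m g *ᵥ u) = mat m g *ᵥ star u := by
      funext i
      simp only [Pi.star_apply, mulVec, dotProduct, star_sum, star_mul', mat, Matrix.map_apply, hF]
    have hadj : ∀ (M : Matrix (Fin m ⊕ Fin m) (Fin m ⊕ Fin m) K) (x y : Fin m ⊕ Fin m → K),
        (M *ᵥ x) ⬝ᵥ (J (Fin m) K *ᵥ (M *ᵥ y)) = x ⬝ᵥ ((Mᵀ * J (Fin m) K * M) *ᵥ y) := by
      intro M x y
      rw [← Matrix.mulVec_mulVec, ← Matrix.mulVec_mulVec, Matrix.dotProduct_mulVec x Mᵀ,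
        Matrix.vecMul_transpose]
    rw [h1, hadj, mat_sp]
  · have h1 : ((hom1 (K := K) m g : (Fin m ⊕ Fin m → K) ≃ₗ[K] (Fin m ⊕ Fin m → K)) :
        (Fin m ⊕ Fin m → K) →ₗ[K] (Fin m ⊕ Fin m → K)) = Matrix.toLin' (mat (K := K) m g) := rfl
    rw [h1, LinearMap.det_toLin']
    have h2 : (mat (K := K) m g).det = algebraMap F K (g.1 : Matrix _ _ F).det := by
      unfold mat
      rw [RingHom.map_det]
      rfl
    rw [h2, SymplecticGroup.det_eq_one g.2, map_one]

end hom

theorem hsp (h1 : HtrStmt) (h2 : HcvStmt) (h3 : HmonStmt) (h4 : PdCenStmt)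
    (h5 : SpCenterMatStmt) : HspStmt := by
  intro F K _ _ _ _ _ m n N hx hF hm hmn hP
  obtain ⟨x, hx'⟩ := hx
  have hθ : x - star x ≠ 0 := fun h => hx' (sub_eq_zero.1 h).symm
  have hs : star (x - star x) = -(x - star x) := by
    rw [star_sub, star_star]
    ring
  have hH := hf_herm m (x - star x) hθ hs
  have hfin : Module.finrank K (Fin m ⊕ Fin m → K) = 2 * m := by
    rw [Module.finrank_fintype_fun_eq_card]
    simp
    ring
  obtain ⟨iso⟩ := h1 K (Fin m ⊕ Fin m → K) (hf m (x - star x)) (2 * m) ⟨x, hx'⟩ hH hfin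
  refine h3 K (2 * m) n N ⟨x, hx'⟩ hmn ?_
  let f : Sp m F →* ↥(SUV (hf m (x - star x))) :=
    { toFun := fun g => ⟨hom1 (K := K) m g, hom1_mem m (x - star x) hF g⟩
      map_one' := Subtype.ext (map_one (hom1 (K := K) m))
      map_mul' := fun a b => Subtype.ext (map_mul (hom1 (K := K) m) a b) }
  have hP2 : PD (↥(SUV (hf m (x - star x))) ⧸ Subgroup.center ↥(SUV (hf m (x - star x)))) N := by
    refine h4 (Sp m F) _ f (Subgroup.center _) (Subgroup.center _) N ?_ hP
    intro g hg
    obtain ⟨c, hc⟩ := h2 K (Fin m ⊕ Fin m → K) (hf m (x - star x)) ⟨x, hx'⟩ hH (f g) hg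
    have hc' : ∀ v, mat (K := K) m g *ᵥ v = c • v := by
      intro v
      rw [← hom1_apply]
      exact hc v
    have he : ∀ i j, algebraMap F K ((g : Matrix (Fin m ⊕ Fin m) (Fin m ⊕ Fin m) F) i j)
        = if i = j then c else 0 := by
      intro i j
      have h6 := congrFun (hc' (Pi.single j 1)) i
      rw [mulVec_single_one] at h6
      simp only [mat, Matrix.col_apply, Matrix.map_apply, Pi.smul_apply, smul_eq_mul] at h6
      rw [h6]
      by_cases hij : i = j
      · subst hij; simp
      · simp [hij]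
    set r : F := (g : Matrix (Fin m ⊕ Fin m) (Fin m ⊕ Fin m) F) (Sum.inl ⟨0, hm⟩)
      (Sum.inl ⟨0, hm⟩) with hr
    have hrc : algebraMap F K r = c := by
      rw [hr, he]
      simp
    have hinj := (algebraMap F K).injective
    have hg1 : (g : Matrix (Fin m ⊕ Fin m) (Fin m ⊕ Fin m) F) = r • 1 := by
      ext i j
      apply hinj
      rw [he]
      by_cases hij : i = j
      · subst hij
        simp [hrc]
      · simp [hij]
    have h7 := (SymplecticGroup.mem_iff.1 g.2)
    rw [hg1] at h7
    have h8 : r * r = 1 := by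
      have h9 := congrFun (congrFun h7 (Sum.inl ⟨0, hm⟩)) (Sum.inr ⟨0, hm⟩)
      simp [J] at h9
      linear_combination h9
    rw [h5, hg1]
    have h10 : (r - 1) * (r + 1) = 0 := by linear_combination h8
    rcases mul_eq_zero.1 h10 with h6 | h6
    · left
      rw [sub_eq_zero.1 h6, one_smul]
    · right
      rw [eq_neg_of_add_eq_zero_left h6]
      simp
  refine h4 _ (SU (2 * m) K) iso.toMonoidHom (Subgroup.center _) (Subgroup.center _) N ?_ hP2
  intro g hg
  rw [Subgroup.mem_center_iff] at hg ⊢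
  intro k
  apply iso.injective
  have := hg (iso k)
  rw [map_mul, map_mul]
  exact this

end Pool.Agent.Eng.H75S
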